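import Pool.Agent.Helper73.QT.Key
import Pool.Agent.Helper73.QQ.Good
import Pool.Agent.Helper73.QX.Galois

/-!
# Tate classes and the operator `∑ g, tr (g) g`
-/

set_option autoImplicit false

open IntermediateField Module

namespace Pool.Agent.Helper73.QQ

open Pool.Agent.Helper75.QC Pool.Agent.Helper73.QX Pool.Agent.Helper73.QW Pool.Agent.Helper35.TD

section

variable {Ω L : Type} [Field Ω] [IsAlgClosed Ω] [Algebra (ZMod 2) Ω] [Field L]
  {K : Type} [Field K] [Algebra Ω K] {x y : K} {S : Set K}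

/-- the trace on the first cohomology of the curve -/
theorem trace_eq_cc [CharZero L] [IsAlgClosed L] (T : BaseTheory Ω L) {t v : K}
    {C : Type} [Field C] [Algebra Ω C] {u s : C} (hu : Transcendental Ω u)
    (hs : u ^ 2 - u = s ^ 3) (hCt : adjoin Ω {u, s} = ⊤)
    (huniv : ∀ (E : Type) [Field E] [Algebra Ω E] (u' s' : E), Transcendental Ω u' →
      u' ^ 2 - u' = s' ^ 3 → ∃ τ : C →ₐ[Ω] E, τ u = u' ∧ τ s = s') (g : Gp Ω x y) {α β : Ω}
    (hα : α ^ 4 = α) (hβ : β ^ 2 + β = α ^ 3) (hα' : toHom g t = t + algebraMap Ω K α)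
    (hβ' : toHom g v = v + algebraMap Ω K α ^ 2 * t + algebraMap Ω K β) {B : C →ₐ[Ω] C}
    (hB : IsAuto u s α β B) :
    LinearMap.trace L (T.H 1 C) (T.map 1 B) = (Module.finrank L (T.H 1 C) : L) * cc L t v g := by
  have hchΩ : CharP Ω 2 := charP_of_injective_algebraMap (algebraMap (ZMod 2) Ω).injective 2
  have h2Ω : (2 : Ω) = 0 := CharTwo.two_eq_zero
  have hfinC : (⊤ : IntermediateField Ω C).FG := by
    rw [← hCt]
    exact fg_adjoin_of_finite (Set.toFinite _)
  have : FiniteDimensional L (T.H 1 C) := T.fin 1 C hfinC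
  unfold cc
  by_cases h1 : toHom g t = t
  · have h3 : α = 0 := by
      have h4 := hα'
      rw [h1] at h4
      have h5 : algebraMap Ω K α = 0 := by linear_combination -h4
      exact (map_eq_zero _).1 h5
    subst h3
    have h6 := hβ'
    rw [map_zero, zero_pow two_ne_zero, zero_mul, add_zero] at h6
    rw [zero_pow three_ne_zero] at hβ
    rw [if_pos h1]
    by_cases h2 : toHom g v = v
    · have h7 : β = 0 := by
        rw [h2] at h6
        have h5 : algebraMap Ω K β = 0 := by linear_combination -h6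
        exact (map_eq_zero _).1 h5
      subst h7
      have h8 : B = AlgHom.id Ω C := by
        refine Pool.Agent.Helper75.QC.hom_ext {u, s} hCt _ _ ?_
        rintro c (rfl | hc)
        · rw [hB.hu]
          simp
        · rw [Set.mem_singleton_iff] at hc
          rw [hc, hB.hs]
          simp
      rw [if_pos h2, mul_one, h8, T.map_id]
      exact LinearMap.trace_id L _
    · have h7 : β = 1 := by
        have h8 : β * (β + 1) = 0 := by linear_combination hβ
        rcases mul_eq_zero.1 h8 with h9 | h9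
        · exfalso
          apply h2
          rw [h6, h9, map_zero, add_zero]
        · linear_combination h9 - h2Ω
      subst h7
      have h8 : (T.map 1 B : End L (T.H 1 C)) = -LinearMap.id := by
        refine LinearMap.ext fun z => ?_
        rw [hB.neg T hs hCt]
        rfl
      rw [if_neg h2, h8, map_neg, LinearMap.trace_id]
      ring
  · have h3 : α ≠ 0 := by
      intro h3
      apply h1
      rw [hα', h3, map_zero, add_zero]
    rw [if_neg h1, mul_zero]
    exact hB.trace_zero T hu hs hCt huniv hα h3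

theorem QCov.good_tate [CharZero L] [IsAlgClosed L] {F : Type} [Field F] [Algebra F Ω]
    (T : GaloisTheory F Ω L) (hC : QCov Ω x y S) {t v : K}
    (ht : t ^ 4 + t ∈ adjoin Ω {x, y}) (hv : v ^ 2 + v + t ^ 3 ∈ adjoin Ω {x, y})
    (hG : GeoQ Ω x y (t ^ 4 + t) (v ^ 2 + v + t ^ 3)) (W : Subgroup (Ω ≃ₐ[F] Ω))
    (hWo : IsOpen (W : Set (Ω ≃ₐ[F] Ω))) (γ : (Ω ≃ₐ[F] Ω) → (K →+* K))
    (hover : ∀ τ ∈ W, IsOver (τ : Ω ≃+* Ω) (γ τ)) (hfx : ∀ τ ∈ W, γ τ x = x)
    (hfy : ∀ τ ∈ W, γ τ y = y) (hfS : ∀ τ ∈ W, ∀ s ∈ S, γ τ s = s)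
    (h4 : ∀ τ ∈ W, ∀ α : Ω, α ^ 4 = α → τ α = α)
    [Fintype (Gp Ω x y)] (z : T.H 2 K)
    (hz : ∀ τ ∈ W, T.act 2 (γ τ) z = ((T.cyc τ)⁻¹ : Lˣ) • z) :
    ∑ g : Gp Ω x y, cc L t v g • T.map 2 (toHom g) z = 0 := by
  classical
  have : Fact (Nat.Prime 2) := ⟨Nat.prime_two⟩
  have hchΩ : CharP Ω 2 := charP_of_injective_algebraMap (algebraMap (ZMod 2) Ω).injective 2
  have hchK := char_two (Ω := Ω) K
  have h2Ω : (2 : Ω) = 0 := CharTwo.two_eq_zero
  obtain ⟨C, N, iC, jC, iN, jN, u, s, a, b, hu, hs, hCt, hb, hN, huniv⟩ :=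
    exists_as_curve 2 (Ω := Ω) Nat.prime_three K
  have hchC := char_two (Ω := Ω) C
  have hsh : ∀ g : Gp Ω x y, ∃ α β : Ω, α ^ 4 = α ∧ β ^ 2 + β = α ^ 3 ∧
      toHom g t = t + algebraMap Ω K α ∧
      toHom g v = v + algebraMap Ω K α ^ 2 * t + algebraMap Ω K β := fun g =>
    exists_shifts ht hv (toHom g) (toHom_x g) (toHom_y g)
  choose α β hα hβ hα' hβ' using hsh
  have hB : ∀ g : Gp Ω x y, ∃ τ : C →ₐ[Ω] C, IsAuto u s (α g) (β g) τ := fun g =>
    exists_auto hu hs huniv (α g) (β g) (hα g) (hβ g)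
  choose B hB using hB
  have hfinC : (⊤ : IntermediateField Ω C).FG := by
    rw [← hCt]
    exact fg_adjoin_of_finite (Set.toFinite _)
  have : FiniteDimensional L (T.H 1 C) := T.fin 1 C hfinC
  have hex : ∀ τ : Ω ≃ₐ[F] Ω, ∃ γ' : C →+* C, τ ∈ W →
      IsOver (τ : Ω ≃+* Ω) γ' ∧ γ' u = u ∧ γ' s = s := by
    intro τ
    obtain ⟨γ', h1⟩ := exists_semilinear u s hu hs huniv (τ : Ω ≃+* Ω)
    exact ⟨γ', fun _ => h1⟩
  choose γ' hγ' using hex
  have hfour : ∀ t : K, t ^ 4 + t ∈ adjoin Ω {x, y} → ∀ g : Gp Ω x y, ∃ α : Ω, α ^ 4 = α ∧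
      toHom g t = t + algebraMap Ω K α := by
    intro t ht g
    apply exists_four
    have h3 := fix_of_mem (toHom g) (toHom_x g) (toHom_y g) ht
    simp only [map_add, map_pow] at h3
    exact h3
  have hcommK : ∀ τ ∈ W, ∀ (σ : Gp Ω x y) (r : T.H 2 K),
      T.act 2 (γ τ) (T.map 2 (toHom σ) r) = T.map 2 (toHom σ) (T.act 2 (γ τ) r) := by
    intro τ hτ σ r
    have hΩ : ∀ c : Ω, c ^ 4 = c → γ τ (algebraMap Ω K c) = algebraMap Ω K c := by
      intro c hc
      rw [hover τ hτ c]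
      exact congrArg _ (h4 τ hτ c hc)
    refine T.act_comm 2 ({x, y} ∪ S) hC.top (τ : Ω ≃+* Ω) (γ τ) (hover τ hτ)
      (toHom σ) ?_ r
    rintro c ((rfl | hc) | hc)
    · rw [toHom_x, hfx τ hτ, toHom_x]
    · rw [Set.mem_singleton_iff] at hc
      rw [hc, toHom_y, hfy τ hτ, toHom_y]
    · rw [hfS τ hτ c hc]
      rcases hC.gen c hc with h | ⟨t', ht', h1, h2⟩
      · obtain ⟨α, hα, h3⟩ := hfour c h σ
        rw [h3, map_add, hfS τ hτ c hc, hΩ α hα]
      · obtain ⟨α, hα, h3⟩ := hfour t' h1 σ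
        have h5 := fix_of_mem (toHom σ) (toHom_x σ) (toHom_y σ) h2
        simp only [map_add, map_pow] at h5
        rw [h3] at h5
        obtain ⟨β, hβ, h6⟩ := exists_two hα h5
        have h7 : γ τ t' = t' := by
          rcases ht' with rfl | ht'
          · exact map_zero _
          · exact hfS τ hτ t' ht'
        rw [h6, map_add, map_add, map_mul, map_pow, hfS τ hτ c hc, h7, hΩ α hα,
          hΩ β (beta_four hα hβ)]
  have hcommC : ∀ τ ∈ W, ∀ (σ : Gp Ω x y) (r : T.H 1 C),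
      T.act 1 (γ' τ) (T.map 1 (B σ) r) = T.map 1 (B σ) (T.act 1 (γ' τ) r) := by
    intro τ hτ σ r
    obtain ⟨g1, g2, g3⟩ := hγ' τ hτ
    have hΩ : ∀ c : Ω, c ^ 4 = c → γ' τ (algebraMap Ω C c) = algebraMap Ω C c := by
      intro c hc
      rw [g1 c]
      exact congrArg _ (h4 τ hτ c hc)
    refine T.act_comm 1 {u, s} hCt (τ : Ω ≃+* Ω) (γ' τ) g1 (B σ) ?_ r
    rintro c (rfl | hc)
    · rw [g2, (hB σ).hu]
      simp only [map_add, map_mul, map_pow]
      rw [g2, g3, hΩ _ (hα σ), hΩ _ (beta_four (hα σ) (hβ σ))]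
    · rw [Set.mem_singleton_iff] at hc
      rw [hc, g3, (hB σ).hs, map_add, map_pow, g3, hΩ _ (hα σ)]
  have hmem := Pool.Agent.Helper73.QT.sum_trace_zero' T a b x y u W γ γ' hC.fg hfinC (by
      intro k
      have : FiniteDimensional (adjoin Ω {x, y}) K := hC.galois.1
      exact Algebra.IsAlgebraic.isAlgebraic k) (fun k => sq_pow_ne (by norm_num) hu hs k hCt) hb
    hWo (by
      refine isForm_of_gens hover ({x, y} ∪ S) hC.top ?_
      rintro τ hτ k ((rfl | hk) | hk)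
      · exact hfx τ hτ
      · rw [Set.mem_singleton_iff] at hk
        rw [hk]
        exact hfy τ hτ
      · exact hfS τ hτ k hk) (by
      refine isForm_of_gens (fun τ hτ => (hγ' τ hτ).1) {u, s} hCt ?_
      intro τ hτ k hk
      rcases hk with rfl | hk
      · exact (hγ' τ hτ).2.1
      · rw [Set.mem_singleton_iff] at hk
        rw [hk]
        exact (hγ' τ hτ).2.2) (fun g : Gp Ω x y => toHom g) B hcommK hcommC
    (hC.sum_zero T.toBaseTheory ht hv hG u s hs hCt a b hN α β hα hα' hβ' B hB) z hz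
  -- the traces
  obtain ⟨z0, hz0⟩ := Helper35.WW.exists_ne_zero (p := 2) T.toBaseTheory u s hu hs hCt
  have hD : (Module.finrank L (T.H 1 C) : L) ≠ 0 := by
    rw [Nat.cast_ne_zero]
    have : Nontrivial (T.H 1 C) := ⟨⟨z0, 0, hz0⟩⟩
    exact Module.finrank_pos.ne'
  have h3 : ∑ g : Gp Ω x y, LinearMap.trace L (T.H 1 C) (T.map 1 (B g)) • T.map 2 (toHom g) z =
      (Module.finrank L (T.H 1 C) : L) • ∑ g : Gp Ω x y, cc L t v g • T.map 2 (toHom g) z := by
    rw [Finset.smul_sum]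
    refine Finset.sum_congr rfl fun g _ => ?_
    have h5 := trace_eq_cc T.toBaseTheory hu hs hCt huniv g (hα g) (hβ g) (hα' g) (hβ' g) (hB g)
    rw [h5, smul_smul]
  rw [h3] at hmem
  exact (smul_eq_zero.1 hmem).resolve_left hD

end

end Pool.Agent.Helper73.QQ
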