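import Mathlib

/-!
# Contractions of equivariant homomorphisms `W → V ⊗ W`
-/

set_option autoImplicit false

namespace Pool.Agent.Helper73.QT

open TensorProduct Module

/-- `m : W → V ⊗ W` is equivariant, its image is in the image of `g : D → V ⊗ W`, and equivariant
homomorphisms `W → D` have vanishing contractions -/
theorem contraction_hom {L I V W D : Type} [Field L] [AddCommGroup V] [Module L V]
    [AddCommGroup W] [Module L W] [AddCommGroup D] [Module L D]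
    (aV : I → V →ₗ[L] V) (aW : I → W →ₗ[L] W) (aD : I → D →ₗ[L] D) (c : I → Lˣ)
    (g : D →ₗ[L] V ⊗[L] W)
    (heq : ∀ i s, TensorProduct.map (aV i) (aW i) (g s) = ((c i)⁻¹ : Lˣ) • g (aD i s))
    (hD : ∀ P : Submodule L D, (∀ i, ∀ x ∈ P, aD i x ∈ P) →
      ∃ Q : Submodule L D, (∀ i, ∀ x ∈ Q, aD i x ∈ Q) ∧ IsCompl P Q)
    (htr : ∀ A : W →ₗ[L] D, (∀ i x, A (aW i x) = aD i (A x)) → ∀ ξ : V →ₗ[L] L,
      LinearMap.trace L W (TensorProduct.lid L W ∘ₗ ξ.rTensor W ∘ₗ g ∘ₗ A) = 0)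
    (m : W →ₗ[L] V ⊗[L] W)
    (hmi : ∀ i x, TensorProduct.map (aV i) (aW i) (m x) = ((c i)⁻¹ : Lˣ) • m (aW i x))
    (hm : ∀ x, m x ∈ LinearMap.range g) (ξ : V →ₗ[L] L) :
    LinearMap.trace L W (TensorProduct.lid L W ∘ₗ ξ.rTensor W ∘ₗ m) = 0 := by
  classical
  -- the kernel of `g` and a complement
  have hKs : ∀ i, ∀ s ∈ LinearMap.ker g, aD i s ∈ LinearMap.ker g := by
    intro i s hs
    rw [LinearMap.mem_ker] at hs ⊢
    have h1 := heq i s
    rw [hs, map_zero] at h1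
    have h2 := congrArg (fun y => (c i) • y) h1
    simp only [smul_inv_smul, smul_zero] at h2
    exact h2.symm
  obtain ⟨R, hR, hKR⟩ := hD _ hKs
  set gR : R →ₗ[L] LinearMap.range g := g.rangeRestrict ∘ₗ R.subtype with hgR
  have hgRi : Function.Injective gR := by
    rw [← LinearMap.ker_eq_bot, LinearMap.ker_eq_bot']
    intro r hr
    have h1 : g (r : D) = 0 := congrArg Subtype.val hr
    have h2 : (r : D) ∈ LinearMap.ker g ⊓ R := ⟨h1, r.2⟩
    rw [hKR.inf_eq_bot, Submodule.mem_bot] at h2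
    exact Subtype.ext h2
  have hgRs : Function.Surjective gR := by
    rintro ⟨_, s, rfl⟩
    have h1 : s ∈ LinearMap.ker g ⊔ R := by rw [hKR.sup_eq_top]; trivial
    obtain ⟨k, hk, r, hr, rfl⟩ := Submodule.mem_sup.1 h1
    refine ⟨⟨r, hr⟩, Subtype.ext ?_⟩
    change g r = g (k + r)
    rw [map_add, LinearMap.mem_ker.1 hk, zero_add]
  set e : R ≃ₗ[L] LinearMap.range g := LinearEquiv.ofBijective gR ⟨hgRi, hgRs⟩ with he
  set mE : W →ₗ[L] LinearMap.range g := m.codRestrict (LinearMap.range g) hm with hmE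
  set A : W →ₗ[L] D := R.subtype ∘ₗ (e.symm : LinearMap.range g →ₗ[L] R) ∘ₗ mE with hA
  have hgA : ∀ x, g (A x) = m x := by
    intro x
    have h1 : gR (e.symm (mE x)) = mE x := e.apply_symm_apply _
    exact congrArg Subtype.val h1
  have hAe : ∀ i x, A (aW i x) = aD i (A x) := by
    intro i x
    have h1 : A (aW i x) ∈ R := (e.symm (mE (aW i x))).2
    have h2 : aD i (A x) ∈ R := hR i _ (e.symm (mE x)).2
    have h3 : g (A (aW i x)) = g (aD i (A x)) := by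
      rw [hgA]
      have h4 := heq i (A x)
      rw [hgA, hmi] at h4
      have h5 := congrArg (fun y => (c i) • y) h4
      simp only [smul_inv_smul] at h5
      exact h5
    have h4 : gR ⟨_, h1⟩ = gR ⟨_, h2⟩ := Subtype.ext h3
    exact congrArg Subtype.val (hgRi h4)
  have h1 := htr A hAe ξ
  have h2 : g ∘ₗ A = m := LinearMap.ext hgA
  rwa [h2] at h1

/-- `∑ g, ρ (g) t ⊗ σ (g) x` -/
theorem sum_trace_zero {L I G V W D : Type} [Field L] [AddCommGroup V] [Module L V]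
    [AddCommGroup W] [Module L W] [AddCommGroup D] [Module L D] [Fintype G]
    (aV : I → V →ₗ[L] V) (aW : I → W →ₗ[L] W) (aD : I → D →ₗ[L] D) (c : I → Lˣ)
    (g : D →ₗ[L] V ⊗[L] W)
    (heq : ∀ i s, TensorProduct.map (aV i) (aW i) (g s) = ((c i)⁻¹ : Lˣ) • g (aD i s))
    (hD : ∀ P : Submodule L D, (∀ i, ∀ x ∈ P, aD i x ∈ P) →
      ∃ Q : Submodule L D, (∀ i, ∀ x ∈ Q, aD i x ∈ Q) ∧ IsCompl P Q)
    (htr : ∀ A : W →ₗ[L] D, (∀ i x, A (aW i x) = aD i (A x)) → ∀ ξ : V →ₗ[L] L,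
      LinearMap.trace L W (TensorProduct.lid L W ∘ₗ ξ.rTensor W ∘ₗ g ∘ₗ A) = 0)
    (ρ : G → V →ₗ[L] V) (σ : G → W →ₗ[L] W) (hρ : ∀ i k x, aV i (ρ k x) = ρ k (aV i x))
    (hσ : ∀ i k x, aW i (σ k x) = σ k (aW i x))
    (t : V) (ht : ∀ i, aV i t = ((c i)⁻¹ : Lˣ) • t)
    (hm : ∀ x, ∑ k, (ρ k t) ⊗ₜ[L] (σ k x) ∈ LinearMap.range g) :
    ∑ k, LinearMap.trace L W (σ k) • ρ k t = 0 := by
  classical
  obtain ⟨m, hmdef⟩ : ∃ m : W →ₗ[L] V ⊗[L] W,
      m = ∑ k, (TensorProduct.mk L V W (ρ k t)) ∘ₗ σ k := ⟨_, rfl⟩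
  have hmx : ∀ x, m x = ∑ k, (ρ k t) ⊗ₜ[L] (σ k x) := by
    intro x
    rw [hmdef, LinearMap.sum_apply]
    rfl
  rw [← Module.forall_dual_apply_eq_zero_iff L]
  intro ξ
  have h1 := contraction_hom aV aW aD c g heq hD htr m (fun i x => by
    rw [hmx, hmx, map_sum, Finset.smul_sum]
    refine Finset.sum_congr rfl fun k _ => ?_
    rw [TensorProduct.map_tmul, hρ, ht, hσ, Units.smul_def, Units.smul_def, map_smul,
      TensorProduct.smul_tmul']) (fun x => by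
    rw [hmx]
    exact hm x) ξ
  have h2 : TensorProduct.lid L W ∘ₗ ξ.rTensor W ∘ₗ m = ∑ k, ξ (ρ k t) • σ k := by
    refine LinearMap.ext fun x => ?_
    change TensorProduct.lid L W (ξ.rTensor W (m x)) = _
    rw [hmx, map_sum, map_sum, LinearMap.sum_apply]
    refine Finset.sum_congr rfl fun k _ => ?_
    rw [LinearMap.rTensor_tmul, TensorProduct.lid_tmul]
    rfl
  rw [h2, map_sum] at h1
  rw [map_sum, ← h1]
  refine Finset.sum_congr rfl fun k _ => ?_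
  rw [map_smul, map_smul, smul_eq_mul, smul_eq_mul, mul_comm]

end Pool.Agent.Helper73.QT
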