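import Pool.Agent.Helper35.TD.Key
import Pool.Agent.Helper73.QT.Lin
import Pool.Agent.Helper73.QQ.Sum

/-!
# Tate classes of a surface with an action of a finite group
-/

set_option autoImplicit false

namespace Pool.Agent.Helper73.QT

open IntermediateField TensorProduct Module Pool.Agent.Helper75.QC Pool.Agent.Helper35.TD

/-- If the quotient of the product by the diagonal action is uniruled, the operator
`∑ g, tr (g | H¹(C)) g` kills the Tate classes of the surface. -/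
theorem sum_trace_zero' {F Ω L : Type} [Field F] [Field Ω] [Algebra F Ω] [Field L]
    (T : GaloisTheory F Ω L) {K C N : Type} [Field K] [Algebra Ω K] [Field C]
    [Algebra Ω C] [Field N] [Algebra Ω N] (a : K →ₐ[Ω] N) (b : C →ₐ[Ω] N) (x y : K) (v : C)
    (U : Subgroup (Ω ≃ₐ[F] Ω)) (γ : (Ω ≃ₐ[F] Ω) → (K →+* K)) (γ' : (Ω ≃ₐ[F] Ω) → (C →+* C))
    (hK : (⊤ : IntermediateField Ω K).FG) (hC : (⊤ : IntermediateField Ω C).FG)
    (hxy : ∀ k : K, k ∈ Acl Ω {x, y}) (hv : ∀ k : C, k ∈ Acl Ω {v})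
    (htr : Transcendental a.fieldRange (b v)) (hU : IsOpen (U : Set (Ω ≃ₐ[F] Ω)))
    (hγ : IsForm U γ) (hγ' : IsForm U γ') {G : Type} [Fintype G]
    (A : G → (K →ₐ[Ω] K)) (B : G → (C →ₐ[Ω] C))
    (hA : ∀ τ ∈ U, ∀ g (r : T.H 2 K), T.act 2 (γ τ) (T.map 2 (A g) r) =
      T.map 2 (A g) (T.act 2 (γ τ) r))
    (hB : ∀ τ ∈ U, ∀ g (r : T.H 1 C), T.act 1 (γ' τ) (T.map 1 (B g) r) =
      T.map 1 (B g) (T.act 1 (γ' τ) r))
    (h0 : ∀ (t : T.H 2 K) (z : T.H 1 C),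
      ∑ g, T.cup N (T.map 2 a (T.map 2 (A g) t)) (T.map 1 b (T.map 1 (B g) z)) = 0)
    (t : T.H 2 K) (ht : ∀ τ ∈ U, T.act 2 (γ τ) t = ((T.cyc τ)⁻¹ : Lˣ) • t) :
    ∑ g, LinearMap.trace L (T.H 1 C) (T.map 1 (B g)) • T.map 2 (A g) t = 0 := by
  obtain ⟨V, D, _, _, δ, g, hVU, hV, hD, hδ, heq, hker, hA'⟩ :=
    T.gysin a b x y v U γ γ' hK hC hxy hv htr hU hγ hγ'
  refine sum_trace_zero (I := V) (fun τ => T.act 2 (γ τ)) (fun τ => T.act 1 (γ' τ))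
    (fun τ => T.act 1 (δ τ)) (fun τ => T.cyc τ) g (fun τ s => heq τ τ.2 s) ?_ ?_
    (fun k => T.map 2 (A k)) (fun k => T.map 1 (B k)) (fun τ k r => hA τ (hVU τ.2) k r)
    (fun τ k r => hB τ (hVU τ.2) k r) t (fun τ => ht τ (hVU τ.2)) ?_
  · intro P hP
    obtain ⟨Q, hQ, h⟩ := T.semisimple D V δ hD hV hδ P fun τ hτ => hP ⟨τ, hτ⟩
    exact ⟨Q, fun τ => hQ τ τ.2, h⟩
  · intro M hMe ξ
    exact hA' M (T.tate C D V γ' δ hC hD hV (hγ'.mono hVU) hδ M fun τ hτ => hMe ⟨τ, hτ⟩) ξ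
  · intro z
    refine (hker _).1 ?_
    rw [map_sum]
    simpa only [TensorProduct.lift.tmul, LinearMap.compl₁₂_apply] using h0 t z

end Pool.Agent.Helper73.QT
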