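import Pool.Agent.Helper73.QT.Good
import Pool.Agent.Helper73.QT.Span
import Pool.Agent.Helper73.QQ.Main

/-!
# Tate classes on the `p`-covers of the plane of small degree
-/

set_option autoImplicit false

open IntermediateField Module

namespace Pool.Agent.Helper73.QQ

open Pool.Agent.Helper75.QC Pool.Agent.Helper73.QX Pool.Agent.Helper73.QW Pool.Agent.Helper40.SD
  Pool.Agent.Helper35.TD

section

variable {Ω : Type} [Field Ω] [Algebra (ZMod 2) Ω] [IsAlgClosed Ω] {K : Type} [Field K]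
  [Algebra Ω K]

theorem qcov_data {a b r : ℕ} {f : Fin r → MvPolynomial (Fin 2) Ω}
    {B g ε h : MvPolynomial (Fin 2) Ω} {x y t : K} {w : Fin r → K} (hab : 0 < a + b) (hg0 : g ≠ 0)
    (hgeh : g ^ 2 = ε * h ^ 3) (hE : wdeg a b ε + wdeg a b h ≤ 2 * (a + b))
    (hf : ∀ i, wdeg a b (f i) + 2 * wdeg a b ε ≤ 6 * (a + b))
    (hB : wdeg a b B + wdeg a b ε ≤ 4 * (a + b)) (hxy : AlgebraicIndependent Ω ![x, y])
    (htop : adjoin Ω ({x, y, t} ∪ Set.range w) = ⊤)
    (ht : t ^ 4 + t = MvPolynomial.aeval ![x, y] B / MvPolynomial.aeval ![x, y] (ε * h ^ 2))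
    (hw : ∀ i, w i ^ 2 - w i =
      MvPolynomial.aeval ![x, y] (f i) / MvPolynomial.aeval ![x, y] g ^ 2 ∨
      w i ^ 2 - w i = t ^ 3 +
        MvPolynomial.aeval ![x, y] (f i) / MvPolynomial.aeval ![x, y] g ^ 2) :
    ∃ D : AddSubmonoid K, (∀ c ∈ D, c ∈ adjoin Ω {x, y}) ∧ (∀ c ∈ D, GeoQ Ω x y 0 c) ∧
      (∀ c ∈ D, GeoQ Ω x y (t ^ 4 + t) c) ∧ (∀ c : Ω, algebraMap Ω K c * (t ^ 4 + t) ∈ D) ∧
      (∀ i, w i ^ 2 + w i ∈ D ∨ w i ^ 2 + w i + t ^ 3 ∈ D) ∧
      QCov Ω x y (insert t (Set.range w)) := by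
  have hchΩ : CharP Ω 2 := charP_of_injective_algebraMap (algebraMap (ZMod 2) Ω).injective 2
  have hch := char_two (Ω := Ω) K
  have h2 : (2 : K) = 0 := CharTwo.two_eq_zero
  have hgv : MvPolynomial.aeval ![x, y] g ≠ 0 := fun h0 =>
    hg0 (algebraicIndependent_iff.1 hxy g h0)
  have heh : MvPolynomial.aeval ![x, y] (ε * h ^ 2) ≠ 0 := by
    intro h0
    apply pow_ne_zero 2 hgv
    rw [← map_pow, hgeh, show ε * h ^ 3 = ε * h ^ 2 * h by ring, map_mul, h0, zero_mul]
  have hxm : x ∈ adjoin Ω {x, y} := subset_adjoin Ω _ (by simp)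
  have hym : y ∈ adjoin Ω {x, y} := subset_adjoin Ω _ (by simp)
  have hP : ∀ P : MvPolynomial (Fin 2) Ω, MvPolynomial.aeval ![x, y] P ∈ adjoin Ω {x, y} :=
    fun P => aeval_mem_of _ hxm hym P
  obtain ⟨D0, hD0⟩ : ∃ D0, D0 = 6 * (a + b) - 2 * wdeg a b ε := ⟨_, rfl⟩
  have hD : ∀ c ∈ frac a b D0 g x y, c ∈ adjoin Ω {x, y} := by
    rintro c ⟨P, -, hc⟩
    have h3 : c = MvPolynomial.aeval ![x, y] P / MvPolynomial.aeval ![x, y] g ^ 2 := by
      rw [← hc, mul_div_cancel_right₀ _ (pow_ne_zero 2 hgv)]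
    rw [h3]
    exact div_mem (hP P) (pow_mem (hP g) 2)
  have hB' : (t ^ 4 + t) * MvPolynomial.aeval ![x, y] (ε * h ^ 2) =
      MvPolynomial.aeval ![x, y] B := by
    rw [ht, div_mul_cancel₀ _ heh]
  have hw' : ∀ i, w i ^ 2 + w i ∈ frac a b D0 g x y ∨
      w i ^ 2 + w i + t ^ 3 ∈ frac a b D0 g x y := by
    intro i
    have hfi : ∀ m ∈ (f i).support, a * m 0 + b * m 1 ≤ D0 := fun m hm => by
      have h3 := le_wdeg a b (f i) m hm
      have h4 := hf i
      omega
    rcases hw i with h1 | h1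
    · refine Or.inl ⟨f i, hfi, ?_⟩
      have h3 : w i ^ 2 + w i =
          MvPolynomial.aeval ![x, y] (f i) / MvPolynomial.aeval ![x, y] g ^ 2 := by
        rw [← h1]
        linear_combination w i * h2
      rw [h3, div_mul_cancel₀ _ (pow_ne_zero 2 hgv)]
    · refine Or.inr ⟨f i, hfi, ?_⟩
      have h3 : w i ^ 2 + w i + t ^ 3 =
          MvPolynomial.aeval ![x, y] (f i) / MvPolynomial.aeval ![x, y] g ^ 2 := by
        linear_combination h1 + (w i + t ^ 3) * h2
      rw [h3, div_mul_cancel₀ _ (pow_ne_zero 2 hgv)]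
  have hhd : ∀ m ∈ h.support, a * m 0 + b * m 1 ≤ wdeg a b h := fun m hm => le_wdeg a b h m hm
  have hεd : ∀ m ∈ ε.support, a * m 0 + b * m 1 ≤ wdeg a b ε := fun m hm => le_wdeg a b ε m hm
  have hBd : ∀ m ∈ B.support, a * m 0 + b * m 1 ≤ 4 * (a + b) - wdeg a b ε := fun m hm => by
    have h3 := le_wdeg a b B m hm
    omega
  have hDt : ∀ c : Ω, algebraMap Ω K c * (t ^ 4 + t) ∈ frac a b D0 g x y := by
    intro c
    refine ⟨MvPolynomial.C c * B * h, ?_, ?_⟩
    · have e0 : ∀ m ∈ (MvPolynomial.C c : MvPolynomial (Fin 2) Ω).support,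
          a * m 0 + b * m 1 ≤ 0 := by
        classical
        intro m hm
        rw [MvPolynomial.mem_support_iff, MvPolynomial.coeff_C] at hm
        have : m = 0 := by
          by_contra h
          rw [if_neg (fun h0 => h h0.symm)] at hm
          exact hm rfl
        rw [this]
        simp
      intro m hm
      have e1 := le_mul (le_mul e0 hBd) hhd m hm
      omega
    · rw [map_mul, map_mul, MvPolynomial.aeval_C, ← hB', ← map_pow (MvPolynomial.aeval ![x, y]) g,
        hgeh]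
      simp only [map_mul, map_pow]
      ring
  have hC : QCov Ω x y (insert t (Set.range w)) :=
    { fin := (Set.finite_range w).insert t
      top := by
        rw [← htop]
        congr 1
        ext s
        simp only [Set.mem_union, Set.mem_insert_iff, Set.mem_singleton_iff, Set.mem_range]
        tauto
      indep := hxy
      gen := by
        rintro s (rfl | ⟨i, rfl⟩)
        · left
          rw [ht]
          exact div_mem (hP B) (hP _)
        · right
          rcases hw' i with h1 | h1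
          · refine ⟨0, by simp, ?_, ?_⟩
            · rw [zero_pow four_ne_zero, add_zero]
              exact zero_mem _
            · rw [zero_pow three_ne_zero, add_zero]
              exact hD _ h1
          · refine ⟨t, by simp, ?_, hD _ h1⟩
            rw [ht]
            exact div_mem (hP B) (hP _) }
  refine ⟨frac a b D0 g x y, hD, ?_, ?_, hDt, hw', hC⟩
  · rintro c ⟨P, hP1, hP2⟩
    exact geoQ_of_degree a b hab g ε h 0 P _ _ hgeh hεd hhd hE (fun m hm => by simp at hm)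
      (fun m hm => (hP1 m hm).trans hD0.le) hgv (by simp) hP2
  · rintro c ⟨P, hP1, hP2⟩
    exact geoQ_of_degree a b hab g ε h B P _ _ hgeh hεd hhd hE hBd
      (fun m hm => (hP1 m hm).trans hD0.le) hgv hB' hP2

theorem noTate_two {F L : Type} [Field F] [Algebra F Ω] [Algebra.IsAlgebraic F Ω] [Field L]
    [CharZero L] [IsAlgClosed L] (T : GaloisTheory F Ω L) {a b r : ℕ}
    {f : Fin r → MvPolynomial (Fin 2) Ω}
    {B g ε h : MvPolynomial (Fin 2) Ω} {x y t : K} {w : Fin r → K} (hab : 0 < a + b) (hg0 : g ≠ 0)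
    (hgeh : g ^ 2 = ε * h ^ 3) (hE : wdeg a b ε + wdeg a b h ≤ 2 * (a + b))
    (hf : ∀ i, wdeg a b (f i) + 2 * wdeg a b ε ≤ 6 * (a + b))
    (hB : wdeg a b B + wdeg a b ε ≤ 4 * (a + b)) (hxy : AlgebraicIndependent Ω ![x, y])
    (htop : adjoin Ω ({x, y, t} ∪ Set.range w) = ⊤)
    (ht : t ^ 4 + t = MvPolynomial.aeval ![x, y] B / MvPolynomial.aeval ![x, y] (ε * h ^ 2))
    (hw : ∀ i, w i ^ 2 - w i =
      MvPolynomial.aeval ![x, y] (f i) / MvPolynomial.aeval ![x, y] g ^ 2 ∨
      w i ^ 2 - w i = t ^ 3 +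
        MvPolynomial.aeval ![x, y] (f i) / MvPolynomial.aeval ![x, y] g ^ 2) :
    NoTate T K := by
  classical
  have hchΩ : CharP Ω 2 := charP_of_injective_algebraMap (algebraMap (ZMod 2) Ω).injective 2
  obtain ⟨D, hD, hG0, hG1, hDt, hw', hC⟩ := qcov_data hab hg0 hgeh hE hf hB hxy htop ht hw
  intro U hU γ hγ z hz
  obtain ⟨W, hWU, hWo, hfix⟩ := fixed_open_set {a : K | ∀ τ ∈ U, γ τ a = a} U hU γ hγ.1
    (fun τ hτ s hs => hs τ hτ) ({x, y, t} ∪ Finset.univ.image w) (fun k _ => by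
      rw [hγ.2]; exact mem_top)
  obtain ⟨V, hVo, hV⟩ := exists_open_set (F := F) {α : Ω | α ^ 4 = α} (by
    have h1 : (Polynomial.X ^ 4 - Polynomial.X : Polynomial Ω) ≠ 0 := by
      intro h0
      have := congrArg (fun q => Polynomial.coeff q 4) h0
      simp [Polynomial.coeff_X] at this
    refine ((Polynomial.X ^ 4 - Polynomial.X : Polynomial Ω).roots.toFinset.finite_toSet).subset ?_
    intro α hα
    rw [Finset.mem_coe, Multiset.mem_toFinset, Polynomial.mem_roots h1, Polynomial.IsRoot,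
      Polynomial.eval_sub, Polynomial.eval_pow, Polynomial.eval_X]
    exact sub_eq_zero.2 hα)
  have hfin := hC.galois.1
  have : Fintype (Gp Ω x y) := Fintype.ofFinite _
  have hmem : z ∈ (⊥ : Submodule L (T.H 2 K)) := by
    refine hC.mem_of_good T.toBaseTheory D hD hG0 hG1 hDt hw' ⊥ z fun t' v' h1 h2 h3 => ?_
    rw [Submodule.mem_bot]
    refine hC.good_tate T h1 h2 h3 (W ⊓ V) (hWo.inter hVo) γ (fun τ hτ => hγ.1 τ (hWU hτ.1))
      (fun τ hτ => hfix τ hτ.1 x (by simp)) (fun τ hτ => hfix τ hτ.1 y (by simp)) ?_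
      (fun τ hτ α hα => hV τ hτ.2 α hα) z (fun τ hτ => hz τ (hWU hτ.1))
    rintro τ hτ s (rfl | ⟨i, rfl⟩)
    · exact hfix τ hτ.1 s (by simp)
    · exact hfix τ hτ.1 (w i) (by simp)
  exact (Submodule.mem_bot L).1 hmem

end

/-- **Tate classes.** -/
theorem noTate_plane {p : ℕ} [hp : Fact p.Prime] {F Ω L : Type} [Field F] [Field Ω] [CharP Ω p]
    [Algebra F Ω] [Algebra.IsAlgebraic F Ω] [IsAlgClosed Ω] [Field L] [CharZero L] [IsAlgClosed L]
    (T : GaloisTheory F Ω L) {K : Type} [Field K] [Algebra Ω K] (hK : IsWildPlane p Ω K) :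
    NoTate T K ∧ (⊤ : IntermediateField Ω K).FG := by
  let _ : Algebra (ZMod p) Ω := ZMod.algebra Ω p
  obtain ⟨a, b, n, f, B, g, ε, h, x, y, t, w, hab, hg0, hgeh, hE, hf, hB, hxy, htop, htp, ht,
    hw⟩ := hK
  have hfinS : ({x, y, t} ∪ Set.range w : Set K).Finite :=
    (Set.toFinite _).union (Set.finite_range w)
  refine ⟨?_, ?_⟩
  · by_cases hp2 : p = 2
    · subst hp2
      exact noTate_two T hab hg0 hgeh (by simpa using hE) (fun i => by simpa using hf i) hB hxy
        htop ht hw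
    · have ht0 : t = 0 := htp.resolve_right hp2
      have hw' : ∀ i, w i ^ p - w i =
          MvPolynomial.aeval ![x, y] (f i) / MvPolynomial.aeval ![x, y] g ^ 2 := by
        intro i
        rcases hw i with h1 | h1
        · exact h1
        · rw [h1, ht0, zero_pow three_ne_zero, zero_add]
      have htop' : adjoin Ω ({x, y} ∪ Set.range w) = ⊤ := by
        rw [eq_top_iff, ← htop, adjoin_le_iff]
        rintro s ((rfl | rfl | hs) | hs)
        · exact subset_adjoin _ _ (by simp)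
        · exact subset_adjoin _ _ (by simp)
        · rw [Set.mem_singleton_iff] at hs
          rw [hs, ht0]
          exact zero_mem _
        · exact subset_adjoin _ _ (Or.inr hs)
      exact (cov_of hxy htop' hw').noTate T (aux_prime p)
        (QX.geo_comb hab hg0 hgeh hE hf hxy hw') (Helper35.WW.wildCurve_aux T.toBaseTheory)
  · rw [← htop]
    exact fg_adjoin_of_finite hfinS

end Pool.Agent.Helper73.QQ
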